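import Pool.Agent.T9h90.SP.Spec

set_option autoImplicit false

/-! Project SP (helper90), piece (LT). -/

namespace Pool.Agent.T9h61.SP

open Pool.Agent.Helper617.RM
open Pool.Agent.T9h90.SP

universe u

theorem bne {a c : Bool} (h : a ≠ !c) : a = c := by
  cases a <;> cases c <;> simp_all

theorem fin_bdd {M : Type u} [LinearOrder M] (m : M) (n : ℕ) (x : ℕ → M) :
    ∃ B, ∀ i, i < n → x i ≤ B := by
  induction n with
  | zero => exact ⟨m, fun i hi => absurd hi (Nat.not_lt_zero i)⟩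
  | succ n ih =>
    obtain ⟨B, hB⟩ := ih
    refine ⟨max B (x n), fun i hi => ?_⟩
    rcases Nat.lt_succ_iff_lt_or_eq.1 hi with h | h
    · exact (hB i h).trans (le_max_left _ _)
    · rw [h]
      exact le_max_right _ _

theorem copy_mono {M : Type u} [LT M] {f : M → M → Bool} {H H' : Set M} {p : Sep} {x : ℕ → M}
    (h : Copy f H p x) (hs : ∀ y, y ∈ H → y ∈ H') : Copy f H' p x :=
  ⟨fun i hi => hs _ (h.1 i hi), h.2⟩

variable {N : L2Structure.{u}} [IsModelRCA0 N]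

theorem df {f : N.M → N.M → Bool} (hf : DF N f) (c : Bool) :
    D0 (fun v : Ctx N => f (v 0) (v 1) = c) := by
  cases c with
  | true => exact hf
  | false =>
    refine (D0.not hf).congr fun v => ?_
    simp

theorem mem_Nc1 {f : N.M → N.M → Bool} {c : Bool} {H : Set N.M} {x y : N.M} :
    y ∈ Nc f c H 1 (fun _ => x) ↔ y ∈ H ∧ x < y ∧ f x y = c := by
  constructor
  · rintro ⟨h1, h2⟩
    exact ⟨h1, h2 0 Nat.zero_lt_one⟩
  · rintro ⟨h1, h2⟩
    exact ⟨h1, fun i _ => h2⟩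

theorem lt : S_CP.{u} → S_NC.{u} → S_CS.{u} → S_TV.{u} → S_SB.{u} → S_HM.{u} → S_LT.{u} := by
  intro hCP hNC hCS hTV hSB hHM N _ f hf hB2 hBad c H hH hU b q hNo1 hNo2 hRe
  -- (i)
  have hi : Unb {x | x ∈ H ∧ ∃ z, Copy f {y | y ∈ Nc f (!c) H 1 (fun _ => x)} (b.infl q) z} := by
    intro B
    have hHB : {y | y ∈ H ∧ B < y} ∈ N.Sets :=
      comp_D0 (P := fun y => y ∈ H ∧ B < y) (D0.and (D0.mem (Tm.var 0) hH)
        (D0.lt (Tm.const B) (Tm.var 0)))
    obtain ⟨HB, hHBdef⟩ : ∃ HB : Set N.M, HB = {y | y ∈ H ∧ B < y} := ⟨_, rfl⟩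
    rw [← hHBdef] at hHB
    have hmemB : ∀ y, y ∈ HB ↔ y ∈ H ∧ B < y := by
      intro y
      rw [hHBdef]
      exact Iff.rfl
    have hUB : Unb HB := by
      intro a
      obtain ⟨y, hy, hy2⟩ := hU (max a B)
      exact ⟨y, (hmemB y).2 ⟨hy, (le_max_right _ _).trans_lt hy2⟩, (le_max_left _ _).trans_lt hy2⟩
    have hex : ∃ x0 ∈ HB, Unb (Nc f (!c) HB 1 (fun _ => x0)) := by
      by_contra hcon
      push Not at hcon
      obtain ⟨H', h1, -, h3, h4⟩ := hHM N f hf hB2 c HB hHB hUB (by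
        intro x hx
        have h5 := hcon x hx
        unfold Unb at h5
        push Not at h5
        obtain ⟨b', hb'⟩ := h5
        refine ⟨max b' x + 1, fun w hw hbw => ?_⟩
        have h6 : max b' x < w := add_one_le_iff'.1 hbw
        refine bne fun h7 => ?_
        have h8 := hb' w (mem_Nc1.2 ⟨hw, (le_max_right _ _).trans_lt h6, h7⟩)
        exact absurd ((le_max_left b' x).trans_lt h6) (not_lt.2 h8))
      exact hBad H' h1 h3 c h4
    obtain ⟨x0, hx0, hux⟩ := hex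
    obtain ⟨z, hz⟩ := hRe (Nc f (!c) HB 1 (fun _ => x0)) (hNC N f hf (!c) HB hHB 1 _)
      (fun y hy => ((hmemB y).1 hy.1).1) hux
    refine ⟨x0, ⟨((hmemB x0).1 hx0).1, z, copy_mono hz fun y hy => ?_⟩, ((hmemB x0).1 hx0).2⟩
    have h1 := mem_Nc1.1 hy
    exact mem_Nc1.2 ⟨((hmemB y).1 h1.1).1, h1.2⟩
  -- (ii)
  have hii : ∀ x0, x0 ∈ H → (∃ z, Copy f {y | y ∈ Nc f (!c) H 1 (fun _ => x0)} (b.infl q) z) →
      ∃ b', ∀ w ∈ H, b' ≤ w → f x0 w = !c := by
    rintro x0 hx0 ⟨z, hz⟩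
    by_contra hcon
    push Not at hcon
    have hz' : Copy f (Nc f (!c) H 1 (fun _ => x0)) (b.infl q) z := copy_mono hz fun y hy => hy
    obtain ⟨W, hW⟩ : ∃ W : Set N.M, W = {w | w ∈ H ∧ f x0 w = c} := ⟨_, rfl⟩
    have hWm : ∀ w, w ∈ W ↔ w ∈ H ∧ f x0 w = c := by
      intro w
      rw [hW]
      exact Iff.rfl
    have hWU : Unb W := by
      intro B
      obtain ⟨w, hw, hw1, hw2⟩ := hcon (B + 1)
      exact ⟨w, (hWm w).2 ⟨hw, bne hw2⟩, add_one_le_iff'.1 hw1⟩
    obtain ⟨u, hu1, -, hu3⟩ := hTV N.M f (Nc f (!c) H 1 (fun _ => x0)) (!c) b q z W hWU hz' (by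
      intro x hx W' hW' hW'U
      by_contra hno
      push Not at hno
      have hbd : ∀ i, ∃ β, i < q.size → ∀ w ∈ W', f (x i) w = (!c) → w ≤ β := by
        intro i
        by_cases hiq : i < q.size
        · have h5 := hno i hiq
          unfold Unb at h5
          push Not at h5
          obtain ⟨β, hβ⟩ := h5
          exact ⟨β, fun _ w hw hwc => hβ w ⟨hw, hwc⟩⟩
        · exact ⟨x0, fun h => absurd h hiq⟩
      choose β hβ using hbd
      obtain ⟨B1, hB1⟩ := fin_bdd x0 q.size β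
      have hone : Copy f H Sep.one (fun _ => x0) := by
        refine ⟨fun _ _ => hx0, fun i j hij hj => ?_⟩
        simp only [Sep.size] at hj
        omega
      have hcopy := (hCP N.M f H (!c) Sep.one q).1 (fun _ => x0) x hone hx
      refine hNo2 _ hcopy ?_
      intro B
      obtain ⟨B2, hB2'⟩ := fin_bdd x0 (Sep.node (!c) Sep.one q).size
        (fun i => if i < Sep.one.size then x0 else x (i - Sep.one.size))
      obtain ⟨w, hw, hw2⟩ := hW'U (max (max B B1) B2)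
      have e1 : B < w := ((le_max_left _ _).trans (le_max_left _ _)).trans_lt hw2
      have e2 : B1 < w := ((le_max_right _ _).trans (le_max_left _ _)).trans_lt hw2
      have e3 : B2 < w := (le_max_right _ _).trans_lt hw2
      have hwW := (hWm w).1 (hW' hw)
      refine ⟨w, ⟨hwW.1, fun i hi => ⟨(hB2' i hi).trans_lt e3, ?_⟩⟩, e1⟩
      by_cases h1 : i < Sep.one.size
      · simp only [if_pos h1]
        exact hwW.2
      · simp only [if_neg h1]
        refine bne fun h7 => ?_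
        have h8 : i - Sep.one.size < q.size := by
          simp only [Sep.size] at hi h1 ⊢
          omega
        exact absurd (e2.trans_le ((hβ _ h8 w hw h7).trans (hB1 _ h8))) (lt_irrefl _))
    refine hNo1 u (copy_mono hu1 fun y hy => hy.1) ?_
    intro B
    obtain ⟨B2, hB2'⟩ := fin_bdd x0 b.size u
    obtain ⟨w, hw, hw2⟩ := hu3 (max B B2)
    have e1 : B < w := (le_max_left _ _).trans_lt hw2
    have e2 : B2 < w := (le_max_right _ _).trans_lt hw2
    exact ⟨w, ⟨((hWm w).1 hw.1).1, fun i hi => ⟨(hB2' i hi).trans_lt e2, hw.2 i hi⟩⟩, e1⟩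
  -- (iii)
  have hS1 : S1 (fun v : Ctx N => v 0 ∈ H ∧
      ∃ z, Copy f {y | y ∈ Nc f (!c) H 1 (fun _ => v 0)} (b.infl q) z) := by
    refine S1.and (D0.mem (Tm.var 0) hH).S1 ?_
    refine (hCS N f hf (b.infl q) (fun x y => y ∈ Nc f (!c) H 1 (fun _ => x))
      (fun _ _ => True) ?_ D0.true).1
    refine (D0.and (D0.mem (Tm.var 1) hH) (D0.and (D0.lt (Tm.var 0) (Tm.var 1))
      (df hf (!c)))).congr fun v => ?_
    exact mem_Nc1.symm
  obtain ⟨H', h1, h2, h3⟩ := hSB N (fun x => x ∈ H ∧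
      ∃ z, Copy f {y | y ∈ Nc f (!c) H 1 (fun _ => x)} (b.infl q) z) hS1 hi
  obtain ⟨H'', g1, -, g3, g4⟩ := hHM N f hf hB2 (!c) H' h1 h2 (by
    intro x hx
    obtain ⟨b', hb'⟩ := hii x (h3 x hx).1 (h3 x hx).2
    exact ⟨b', fun w hw => hb' w (h3 w hw).1⟩)
  exact hBad H'' g1 g3 (!c) g4

end Pool.Agent.T9h61.SP
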